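import Mathlib

set_option autoImplicit false

/-!
# The Coxeter group of type `H₃` is integrable

`W(H₃) = ⟨z⟩ × W⁺` where `z = (s₀ s₂ s₁)⁵` is a central involution of odd length and the rotation
subgroup `W⁺` is perfect.  Hence `W(H₃)` is isomorphic to the derived subgroup of `D₈ × W⁺`.
-/

namespace Pool.Agent.Results.MP_417677_al.IntegralH3

/-- The Coxeter diagram of a Coxeter matrix (in Mathlib the entry `0` stands for `∞`): two
distinct vertices are adjacent exactly when the entry is `≥ 3` or `∞`. -/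
def diagram {B : Type} (M : CoxeterMatrix B) : SimpleGraph B where
  Adj i j := i ≠ j ∧ M i j ≠ 2
  symm := ⟨fun i j h => ⟨h.1.symm, by rw [M.symmetric]; exact h.2⟩⟩
  loopless := ⟨fun _ h => h.1 rfl⟩

/-- A group is integrable if it is isomorphic to the derived subgroup of some group. -/
def Integrable (G : Type) [Group G] : Prop :=
  ∃ (H : Type) (_ : Group H), Nonempty (commutator H ≃* G)

/-- The Coxeter group of type `H₃`. -/
abbrev W : Type := CoxeterMatrix.H₃.Group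

/-- The Coxeter system of type `H₃`. -/
def cs : CoxeterSystem CoxeterMatrix.H₃ W := CoxeterMatrix.H₃.toCoxeterSystem

lemma r02 : cs.simple 0 * cs.simple 2 = cs.simple 2 * cs.simple 0 := by
  have h : (cs.simple 0 * cs.simple 2) ^ 2 = 1 := cs.simple_mul_simple_pow 0 2
  have h0 := cs.simple_mul_simple_self 0
  have h2 := cs.simple_mul_simple_self 2
  have i0 := cs.inv_simple 0
  have i2 := cs.inv_simple 2
  rw [pow_two] at h
  have h3 := eq_inv_of_mul_eq_one_left h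
  rw [mul_inv_rev, i0, i2] at h3
  exact h3

lemma r01 : cs.simple 0 * cs.simple 1 * cs.simple 0 = cs.simple 1 * cs.simple 0 * cs.simple 1 := by
  have h : (cs.simple 0 * cs.simple 1) ^ 3 = 1 := cs.simple_mul_simple_pow 0 1
  have i0 := cs.inv_simple 0
  have i1 := cs.inv_simple 1
  have h3 : cs.simple 0 * cs.simple 1 * cs.simple 0 *
      (cs.simple 1 * cs.simple 0 * cs.simple 1) = 1 := by
    rw [← h]; simp only [pow_succ, pow_zero, one_mul, mul_assoc]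
  have h4 := eq_inv_of_mul_eq_one_left h3
  rw [h4, mul_inv_rev, mul_inv_rev, i0, i1, mul_assoc]

lemma r12 : cs.simple 1 * cs.simple 2 * cs.simple 1 * cs.simple 2 * cs.simple 1 =
    cs.simple 2 * cs.simple 1 * cs.simple 2 * cs.simple 1 * cs.simple 2 := by
  have h : (cs.simple 1 * cs.simple 2) ^ 5 = 1 := cs.simple_mul_simple_pow 1 2
  have i1 := cs.inv_simple 1
  have i2 := cs.inv_simple 2
  have h3 : cs.simple 1 * cs.simple 2 * cs.simple 1 * cs.simple 2 * cs.simple 1 *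
      (cs.simple 2 * cs.simple 1 * cs.simple 2 * cs.simple 1 * cs.simple 2) = 1 := by
    rw [← h]; simp only [pow_succ, pow_zero, one_mul, mul_assoc]
  have h4 := eq_inv_of_mul_eq_one_left h3
  rw [h4]
  simp only [mul_inv_rev, i1, i2, mul_assoc]

lemma h02 (l r : List (Fin 3)) :
    cs.wordProd (l ++ [0, 2] ++ r) = cs.wordProd (l ++ [2, 0] ++ r) := by
  have : cs.wordProd [0, 2] = cs.wordProd [2, 0] := by
    simp [CoxeterSystem.wordProd, r02]
  rw [cs.wordProd_append, cs.wordProd_append, this, cs.wordProd_append, cs.wordProd_append]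

lemma h20 (l r : List (Fin 3)) :
    cs.wordProd (l ++ [2, 0] ++ r) = cs.wordProd (l ++ [0, 2] ++ r) := (h02 l r).symm

lemma h01 (l r : List (Fin 3)) :
    cs.wordProd (l ++ [0, 1, 0] ++ r) = cs.wordProd (l ++ [1, 0, 1] ++ r) := by
  have : cs.wordProd [0, 1, 0] = cs.wordProd [1, 0, 1] := by
    have := r01
    simp only [mul_assoc] at this
    simp [CoxeterSystem.wordProd, this]
  rw [cs.wordProd_append, cs.wordProd_append, this, cs.wordProd_append, cs.wordProd_append]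

lemma h10 (l r : List (Fin 3)) :
    cs.wordProd (l ++ [1, 0, 1] ++ r) = cs.wordProd (l ++ [0, 1, 0] ++ r) := (h01 l r).symm

lemma h12 (l r : List (Fin 3)) :
    cs.wordProd (l ++ [1, 2, 1, 2, 1] ++ r) = cs.wordProd (l ++ [2, 1, 2, 1, 2] ++ r) := by
  have : cs.wordProd [1, 2, 1, 2, 1] = cs.wordProd [2, 1, 2, 1, 2] := by
    have := r12
    simp only [mul_assoc] at this
    simp [CoxeterSystem.wordProd, this]
  rw [cs.wordProd_append, cs.wordProd_append, this, cs.wordProd_append, cs.wordProd_append]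

lemma h21 (l r : List (Fin 3)) :
    cs.wordProd (l ++ [2, 1, 2, 1, 2] ++ r) = cs.wordProd (l ++ [1, 2, 1, 2, 1] ++ r) :=
  (h12 l r).symm

lemma long1 : cs.wordProd [0, 2, 1, 0, 2, 1, 0, 2, 1, 0, 2, 1, 0, 2, 1] =
    cs.wordProd [1, 0, 2, 1, 0, 2, 1, 0, 2, 1, 0, 2, 1, 0, 2] := by
  calc cs.wordProd [0, 2, 1, 0, 2, 1, 0, 2, 1, 0, 2, 1, 0, 2, 1]
      = cs.wordProd [0, 2, 1, 2, 0, 1, 0, 2, 1, 0, 2, 1, 0, 2, 1] := h02 [0, 2, 1] [1, 0, 2, 1, 0, 2, 1, 0, 2, 1]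
    _ = cs.wordProd [0, 2, 1, 2, 0, 1, 0, 2, 1, 2, 0, 1, 0, 2, 1] := h02 [0, 2, 1, 2, 0, 1, 0, 2, 1] [1, 0, 2, 1]
    _ = cs.wordProd [0, 2, 1, 2, 1, 0, 1, 2, 1, 2, 0, 1, 0, 2, 1] := h01 [0, 2, 1, 2] [2, 1, 2, 0, 1, 0, 2, 1]
    _ = cs.wordProd [0, 2, 1, 2, 1, 0, 1, 2, 1, 2, 1, 0, 1, 2, 1] := h01 [0, 2, 1, 2, 1, 0, 1, 2, 1, 2] [2, 1]
    _ = cs.wordProd [0, 2, 1, 2, 1, 0, 2, 1, 2, 1, 2, 0, 1, 2, 1] := h12 [0, 2, 1, 2, 1, 0] [0, 1, 2, 1]
    _ = cs.wordProd [0, 2, 1, 2, 1, 2, 0, 1, 2, 1, 2, 0, 1, 2, 1] := h02 [0, 2, 1, 2, 1] [1, 2, 1, 2, 0, 1, 2, 1]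
    _ = cs.wordProd [0, 2, 1, 2, 1, 2, 0, 1, 2, 1, 0, 2, 1, 2, 1] := h20 [0, 2, 1, 2, 1, 2, 0, 1, 2, 1] [1, 2, 1]
    _ = cs.wordProd [0, 1, 2, 1, 2, 1, 0, 1, 2, 1, 0, 2, 1, 2, 1] := h21 [0] [0, 1, 2, 1, 0, 2, 1, 2, 1]
    _ = cs.wordProd [0, 1, 2, 1, 2, 0, 1, 0, 2, 1, 0, 2, 1, 2, 1] := h10 [0, 1, 2, 1, 2] [2, 1, 0, 2, 1, 2, 1]
    _ = cs.wordProd [0, 1, 2, 1, 2, 0, 1, 2, 0, 1, 0, 2, 1, 2, 1] := h02 [0, 1, 2, 1, 2, 0, 1] [1, 0, 2, 1, 2, 1]
    _ = cs.wordProd [0, 1, 2, 1, 0, 2, 1, 2, 0, 1, 0, 2, 1, 2, 1] := h20 [0, 1, 2, 1] [1, 2, 0, 1, 0, 2, 1, 2, 1]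
    _ = cs.wordProd [0, 1, 2, 1, 0, 2, 1, 2, 1, 0, 1, 2, 1, 2, 1] := h01 [0, 1, 2, 1, 0, 2, 1, 2] [2, 1, 2, 1]
    _ = cs.wordProd [0, 1, 2, 1, 0, 2, 1, 2, 1, 0, 2, 1, 2, 1, 2] := h12 [0, 1, 2, 1, 0, 2, 1, 2, 1, 0] []
    _ = cs.wordProd [0, 1, 2, 1, 0, 2, 1, 2, 1, 2, 0, 1, 2, 1, 2] := h02 [0, 1, 2, 1, 0, 2, 1, 2, 1] [1, 2, 1, 2]
    _ = cs.wordProd [0, 1, 2, 1, 0, 1, 2, 1, 2, 1, 0, 1, 2, 1, 2] := h21 [0, 1, 2, 1, 0] [0, 1, 2, 1, 2]
    _ = cs.wordProd [0, 1, 2, 0, 1, 0, 2, 1, 2, 1, 0, 1, 2, 1, 2] := h10 [0, 1, 2] [2, 1, 2, 1, 0, 1, 2, 1, 2]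
    _ = cs.wordProd [0, 1, 2, 0, 1, 2, 0, 1, 2, 1, 0, 1, 2, 1, 2] := h02 [0, 1, 2, 0, 1] [1, 2, 1, 0, 1, 2, 1, 2]
    _ = cs.wordProd [0, 1, 0, 2, 1, 2, 0, 1, 2, 1, 0, 1, 2, 1, 2] := h20 [0, 1] [1, 2, 0, 1, 2, 1, 0, 1, 2, 1, 2]
    _ = cs.wordProd [1, 0, 1, 2, 1, 2, 0, 1, 2, 1, 0, 1, 2, 1, 2] := h01 [] [2, 1, 2, 0, 1, 2, 1, 0, 1, 2, 1, 2]
    _ = cs.wordProd [1, 0, 1, 2, 1, 2, 0, 1, 2, 0, 1, 0, 2, 1, 2] := h10 [1, 0, 1, 2, 1, 2, 0, 1, 2] [2, 1, 2]
    _ = cs.wordProd [1, 0, 1, 2, 1, 2, 0, 1, 2, 0, 1, 2, 0, 1, 2] := h02 [1, 0, 1, 2, 1, 2, 0, 1, 2, 0, 1] [1, 2]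
    _ = cs.wordProd [1, 0, 1, 2, 1, 2, 0, 1, 0, 2, 1, 2, 0, 1, 2] := h20 [1, 0, 1, 2, 1, 2, 0, 1] [1, 2, 0, 1, 2]
    _ = cs.wordProd [1, 0, 1, 2, 1, 2, 1, 0, 1, 2, 1, 2, 0, 1, 2] := h01 [1, 0, 1, 2, 1, 2] [2, 1, 2, 0, 1, 2]
    _ = cs.wordProd [1, 0, 2, 1, 2, 1, 2, 0, 1, 2, 1, 2, 0, 1, 2] := h12 [1, 0] [0, 1, 2, 1, 2, 0, 1, 2]
    _ = cs.wordProd [1, 0, 2, 1, 2, 1, 0, 2, 1, 2, 1, 2, 0, 1, 2] := h20 [1, 0, 2, 1, 2, 1] [1, 2, 1, 2, 0, 1, 2]
    _ = cs.wordProd [1, 0, 2, 1, 2, 1, 0, 1, 2, 1, 2, 1, 0, 1, 2] := h21 [1, 0, 2, 1, 2, 1, 0] [0, 1, 2]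
    _ = cs.wordProd [1, 0, 2, 1, 2, 0, 1, 0, 2, 1, 2, 1, 0, 1, 2] := h10 [1, 0, 2, 1, 2] [2, 1, 2, 1, 0, 1, 2]
    _ = cs.wordProd [1, 0, 2, 1, 0, 2, 1, 0, 2, 1, 2, 1, 0, 1, 2] := h20 [1, 0, 2, 1] [1, 0, 2, 1, 2, 1, 0, 1, 2]
    _ = cs.wordProd [1, 0, 2, 1, 0, 2, 1, 0, 2, 1, 2, 0, 1, 0, 2] := h10 [1, 0, 2, 1, 0, 2, 1, 0, 2, 1, 2] [2]
    _ = cs.wordProd [1, 0, 2, 1, 0, 2, 1, 0, 2, 1, 0, 2, 1, 0, 2] := h20 [1, 0, 2, 1, 0, 2, 1, 0, 2, 1] [1, 0, 2]

lemma long2 : cs.wordProd [2, 1, 0, 2, 1, 0, 2, 1, 0, 2, 1, 0, 2, 1, 0] =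
    cs.wordProd [0, 2, 1, 0, 2, 1, 0, 2, 1, 0, 2, 1, 0, 2, 1] := by
  calc cs.wordProd [2, 1, 0, 2, 1, 0, 2, 1, 0, 2, 1, 0, 2, 1, 0]
      = cs.wordProd [2, 1, 0, 2, 1, 2, 0, 1, 0, 2, 1, 0, 2, 1, 0] := h02 [2, 1, 0, 2, 1] [1, 0, 2, 1, 0, 2, 1, 0]
    _ = cs.wordProd [2, 1, 0, 2, 1, 2, 0, 1, 0, 2, 1, 2, 0, 1, 0] := h02 [2, 1, 0, 2, 1, 2, 0, 1, 0, 2, 1] [1, 0]
    _ = cs.wordProd [2, 1, 0, 2, 1, 2, 1, 0, 1, 2, 1, 2, 0, 1, 0] := h01 [2, 1, 0, 2, 1, 2] [2, 1, 2, 0, 1, 0]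
    _ = cs.wordProd [2, 1, 0, 2, 1, 2, 1, 0, 1, 2, 1, 2, 1, 0, 1] := h01 [2, 1, 0, 2, 1, 2, 1, 0, 1, 2, 1, 2] []
    _ = cs.wordProd [2, 1, 0, 2, 1, 2, 1, 0, 2, 1, 2, 1, 2, 0, 1] := h12 [2, 1, 0, 2, 1, 2, 1, 0] [0, 1]
    _ = cs.wordProd [2, 1, 0, 2, 1, 2, 1, 2, 0, 1, 2, 1, 2, 0, 1] := h02 [2, 1, 0, 2, 1, 2, 1] [1, 2, 1, 2, 0, 1]
    _ = cs.wordProd [2, 1, 0, 2, 1, 2, 1, 2, 0, 1, 2, 1, 0, 2, 1] := h20 [2, 1, 0, 2, 1, 2, 1, 2, 0, 1, 2, 1] [1]
    _ = cs.wordProd [2, 1, 0, 1, 2, 1, 2, 1, 0, 1, 2, 1, 0, 2, 1] := h21 [2, 1, 0] [0, 1, 2, 1, 0, 2, 1]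
    _ = cs.wordProd [2, 0, 1, 0, 2, 1, 2, 1, 0, 1, 2, 1, 0, 2, 1] := h10 [2] [2, 1, 2, 1, 0, 1, 2, 1, 0, 2, 1]
    _ = cs.wordProd [0, 2, 1, 0, 2, 1, 2, 1, 0, 1, 2, 1, 0, 2, 1] := h20 [] [1, 0, 2, 1, 2, 1, 0, 1, 2, 1, 0, 2, 1]
    _ = cs.wordProd [0, 2, 1, 0, 2, 1, 2, 0, 1, 0, 2, 1, 0, 2, 1] := h10 [0, 2, 1, 0, 2, 1, 2] [2, 1, 0, 2, 1]
    _ = cs.wordProd [0, 2, 1, 0, 2, 1, 0, 2, 1, 0, 2, 1, 0, 2, 1] := h20 [0, 2, 1, 0, 2, 1] [1, 0, 2, 1, 0, 2, 1]

/-- the longest element -/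
def z : W := (cs.simple 0 * cs.simple 2 * cs.simple 1) ^ 5

lemma z_word : z = cs.wordProd [0, 2, 1, 0, 2, 1, 0, 2, 1, 0, 2, 1, 0, 2, 1] := by
  simp only [z, CoxeterSystem.wordProd, List.map, List.prod_cons, List.prod_nil, pow_succ,
    pow_zero, one_mul, mul_one, mul_assoc]

lemma z_s0 : Commute z (cs.simple 0) := by
  have h1 : z = cs.simple 0 * cs.wordProd [2, 1, 0, 2, 1, 0, 2, 1, 0, 2, 1, 0, 2, 1] := by
    rw [z_word, ← cs.wordProd_cons]
  have h2 : cs.wordProd [2, 1, 0, 2, 1, 0, 2, 1, 0, 2, 1, 0, 2, 1] * cs.simple 0 = z := by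
    rw [z_word, ← long2, ← cs.wordProd_concat]; rfl
  have h3 := cs.simple_mul_simple_self 0
  rw [Commute, SemiconjBy]
  calc z * cs.simple 0 = cs.simple 0 *
        (cs.wordProd [2, 1, 0, 2, 1, 0, 2, 1, 0, 2, 1, 0, 2, 1] * cs.simple 0) := by
          conv_lhs => rw [h1]
          rw [mul_assoc]
    _ = cs.simple 0 * z := by rw [h2]

lemma z_s1 : Commute z (cs.simple 1) := by
  have h1 : z = cs.wordProd [0, 2, 1, 0, 2, 1, 0, 2, 1, 0, 2, 1, 0, 2] * cs.simple 1 := by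
    rw [z_word, ← cs.wordProd_concat]; rfl
  have h2 : cs.simple 1 * cs.wordProd [0, 2, 1, 0, 2, 1, 0, 2, 1, 0, 2, 1, 0, 2] = z := by
    rw [z_word, long1, ← cs.wordProd_cons]
  rw [Commute, SemiconjBy]
  calc z * cs.simple 1 = cs.simple 1 *
        cs.wordProd [0, 2, 1, 0, 2, 1, 0, 2, 1, 0, 2, 1, 0, 2] * cs.simple 1 := by rw [h2]
    _ = cs.simple 1 * z := by rw [mul_assoc, ← h1]

lemma z_c : Commute z (cs.simple 0 * cs.simple 2 * cs.simple 1) := Commute.pow_self _ 5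

lemma z_s2 : Commute z (cs.simple 2) := by
  have h1 : cs.simple 2 = (cs.simple 0)⁻¹ * (cs.simple 0 * cs.simple 2 * cs.simple 1) *
      (cs.simple 1)⁻¹ := by group
  rw [h1]
  exact (z_s0.inv_right.mul_right z_c).mul_right z_s1.inv_right

lemma z_central (w : W) : Commute z w := by
  refine cs.simple_induction w ?_ (Commute.one_right _) (fun a b ha hb => ha.mul_right hb)
  intro i
  fin_cases i
  · exact z_s0
  · exact z_s1
  · exact z_s2

lemma z_sq : z * z = 1 := by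
  have h1 : z = (cs.simple 1 * (cs.simple 0 * cs.simple 2)) ^ 5 := by
    rw [z_word, long1]
    simp only [CoxeterSystem.wordProd, List.map, List.prod_cons, List.prod_nil, pow_succ,
      pow_zero, one_mul, mul_one, mul_assoc]
  have h2 : (cs.simple 0 * cs.simple 2 * cs.simple 1)⁻¹ =
      cs.simple 1 * (cs.simple 0 * cs.simple 2) := by
    rw [mul_inv_rev, mul_inv_rev, cs.inv_simple, cs.inv_simple, cs.inv_simple, r02]
  have h3 : z⁻¹ = z := by
    conv_rhs => rw [h1]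
    rw [z, ← inv_pow, h2]
  calc z * z = z⁻¹ * z := by rw [h3]
    _ = 1 := inv_mul_cancel z

/-- the sign homomorphism -/
def sgn : W →* ℤˣ := cs.lift ⟨fun _ => -1, fun i j => by
  show ((-1 : ℤˣ) * -1) ^ _ = 1
  simp⟩

lemma sgn_s (i : Fin 3) : sgn (cs.simple i) = -1 := cs.lift_apply_simple _ i

lemma sgn_z : sgn z = -1 := by
  rw [z, map_pow, map_mul, map_mul, sgn_s, sgn_s, sgn_s]; decide

/-- the rotation subgroup -/
abbrev K : Subgroup W := sgn.ker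

/-- the two generators of the rotation subgroup -/
def E : Subgroup W := Subgroup.closure {cs.simple 0 * cs.simple 1, cs.simple 1 * cs.simple 2}

lemma x01_mem : cs.simple 0 * cs.simple 1 ∈ E := Subgroup.subset_closure (by simp)

lemma x12_mem : cs.simple 1 * cs.simple 2 ∈ E := Subgroup.subset_closure (by simp)

lemma s0_conj (w : W) (hw : w ∈ E) : cs.simple 0 * w * cs.simple 0 ∈ E := by
  have h0 := cs.simple_mul_simple_self 0
  have i0 := cs.inv_simple 0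
  have i1 := cs.inv_simple 1
  have h1 := cs.simple_mul_simple_self 1
  have h2 : E.map (MulAut.conj (cs.simple 0)).toMonoidHom ≤ E := by
    rw [E, MonoidHom.map_closure, Subgroup.closure_le]
    rintro _ ⟨x, (rfl | rfl), rfl⟩
    · have e : (MulAut.conj (cs.simple 0)).toMonoidHom (cs.simple 0 * cs.simple 1) =
          (cs.simple 0 * cs.simple 1)⁻¹ := by
        show cs.simple 0 * (cs.simple 0 * cs.simple 1) * (cs.simple 0)⁻¹ = _
        rw [← mul_assoc, h0, one_mul, mul_inv_rev, i1]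
      rw [e]
      exact inv_mem x01_mem
    · have e : (MulAut.conj (cs.simple 0)).toMonoidHom (cs.simple 1 * cs.simple 2) =
          (cs.simple 0 * cs.simple 1) * ((cs.simple 0 * cs.simple 1) *
            (cs.simple 1 * cs.simple 2)) := by
        show cs.simple 0 * (cs.simple 1 * cs.simple 2) * (cs.simple 0)⁻¹ = _
        rw [i0]
        calc cs.simple 0 * (cs.simple 1 * cs.simple 2) * cs.simple 0
            = cs.simple 0 * cs.simple 1 * (cs.simple 2 * cs.simple 0) := by group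
          _ = cs.simple 0 * cs.simple 1 * (cs.simple 0 * cs.simple 2) := by rw [← r02]
          _ = cs.simple 0 * cs.simple 1 * (cs.simple 0 * (cs.simple 1 * cs.simple 1) *
              cs.simple 2) := by rw [h1, mul_one]
          _ = _ := by group
      rw [e]
      exact mul_mem x01_mem (mul_mem x01_mem x12_mem)
  have h3 : cs.simple 0 * w * (cs.simple 0)⁻¹ ∈ E := h2 ⟨w, hw, rfl⟩
  rwa [i0] at h3

lemma mem_E_or (w : W) : w ∈ E ∨ w * cs.simple 0 ∈ E := by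
  have h0 := cs.simple_mul_simple_self 0
  have h1 := cs.simple_mul_simple_self 1
  have h2 := cs.simple_mul_simple_self 2
  have i0 := cs.inv_simple 0
  have i1 := cs.inv_simple 1
  have i2 := cs.inv_simple 2
  have step0 : ∀ w : W, (w ∈ E ∨ w * cs.simple 0 ∈ E) →
      (cs.simple 0 * w ∈ E ∨ cs.simple 0 * w * cs.simple 0 ∈ E) := by
    intro w hw
    rcases hw with hw | hw
    · exact Or.inr (s0_conj w hw)
    · left
      have := s0_conj _ hw
      have e : cs.simple 0 * (w * cs.simple 0) * cs.simple 0 = cs.simple 0 * w := by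
        rw [mul_assoc, mul_assoc, h0, mul_one]
      rwa [e] at this
  have stepE : ∀ (g w : W), g ∈ E → (w ∈ E ∨ w * cs.simple 0 ∈ E) →
      (g * w ∈ E ∨ g * w * cs.simple 0 ∈ E) := by
    intro g w hg hw
    rcases hw with hw | hw
    · exact Or.inl (mul_mem hg hw)
    · right; rw [mul_assoc]; exact mul_mem hg hw
  have step1 : ∀ w : W, (w ∈ E ∨ w * cs.simple 0 ∈ E) →
      (cs.simple 1 * w ∈ E ∨ cs.simple 1 * w * cs.simple 0 ∈ E) := by
    intro w hw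
    have e : cs.simple 1 * w = (cs.simple 0 * cs.simple 1)⁻¹ * (cs.simple 0 * w) := by
      rw [mul_inv_rev, i0, i1, mul_assoc, ← mul_assoc (cs.simple 0), h0, one_mul]
    rw [e]
    exact stepE _ _ (inv_mem x01_mem) (step0 w hw)
  have step2 : ∀ w : W, (w ∈ E ∨ w * cs.simple 0 ∈ E) →
      (cs.simple 2 * w ∈ E ∨ cs.simple 2 * w * cs.simple 0 ∈ E) := by
    intro w hw
    have e : cs.simple 2 * w = (cs.simple 1 * cs.simple 2)⁻¹ * (cs.simple 1 * w) := by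
      rw [mul_inv_rev, i1, i2, mul_assoc, ← mul_assoc (cs.simple 1), h1, one_mul]
    rw [e]
    exact stepE _ _ (inv_mem x12_mem) (step1 w hw)
  refine cs.simple_induction_left (p := fun w => w ∈ E ∨ w * cs.simple 0 ∈ E) w
    (Or.inl (one_mem _)) ?_
  intro w i hw
  fin_cases i
  · exact step0 w hw
  · exact step1 w hw
  · exact step2 w hw

lemma K_le_E {w : W} (hw : w ∈ K) : w ∈ E := by
  rcases mem_E_or w with h | h
  · exact h
  · exfalso
    have hE : E ≤ K := by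
      rw [E, Subgroup.closure_le]
      rintro x (rfl | rfl)
      · rw [SetLike.mem_coe, MonoidHom.mem_ker, map_mul, sgn_s, sgn_s]; decide
      · rw [SetLike.mem_coe, MonoidHom.mem_ker, map_mul, sgn_s, sgn_s]; decide
    have h1 := hE h
    rw [MonoidHom.mem_ker, map_mul, MonoidHom.mem_ker.1 hw, sgn_s] at h1
    exact absurd h1 (by decide)

/-- the rotation subgroup is perfect -/
lemma K_perfect : commutator K = ⊤ := by
  have hE : E ≤ K := by
    rw [E, Subgroup.closure_le]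
    rintro x (rfl | rfl)
    · rw [SetLike.mem_coe, MonoidHom.mem_ker, map_mul, sgn_s, sgn_s]; decide
    · rw [SetLike.mem_coe, MonoidHom.mem_ker, map_mul, sgn_s, sgn_s]; decide
  let a : K := ⟨cs.simple 0 * cs.simple 1, hE x01_mem⟩
  let b : K := ⟨cs.simple 1 * cs.simple 2, hE x12_mem⟩
  have ha : a ^ 3 = 1 := by
    apply Subtype.ext
    exact cs.simple_mul_simple_pow 0 1
  have hb : b ^ 5 = 1 := by
    apply Subtype.ext
    exact cs.simple_mul_simple_pow 1 2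
  have hab : (a * b) ^ 2 = 1 := by
    apply Subtype.ext
    have e : (cs.simple 0 * cs.simple 1) * (cs.simple 1 * cs.simple 2) =
        cs.simple 0 * cs.simple 2 := by
      rw [mul_assoc, ← mul_assoc (cs.simple 1), cs.simple_mul_simple_self, one_mul]
    show ((cs.simple 0 * cs.simple 1) * (cs.simple 1 * cs.simple 2)) ^ 2 = 1
    rw [e]
    exact cs.simple_mul_simple_pow 0 2
  -- in the abelianisation
  let q : K →* Abelianization K := Abelianization.of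
  have qa3 : q a ^ 3 = 1 := by rw [← map_pow, ha, map_one]
  have qb5 : q b ^ 5 = 1 := by rw [← map_pow, hb, map_one]
  have qab : q a ^ 2 * q b ^ 2 = 1 := by rw [← mul_pow, ← map_mul, ← map_pow, hab, map_one]
  have qb : q b = 1 := by
    have e1 : q b ^ 6 = 1 := by
      have : (q a ^ 2 * q b ^ 2) ^ 3 = (q a ^ 3) ^ 2 * q b ^ 6 := by
        rw [mul_pow, ← pow_mul, ← pow_mul, ← pow_mul]
      rw [qab, qa3, one_pow, one_pow, one_mul] at this
      exact this.symm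
    calc q b = q b ^ 6 * (q b ^ 5)⁻¹ := by group
      _ = 1 := by rw [e1, qb5]; simp
  have qa : q a = 1 := by
    rw [qb, one_pow, mul_one] at qab
    calc q a = q a ^ 3 * (q a ^ 2)⁻¹ := by group
      _ = 1 := by rw [qa3, qab]; simp
  have key : ∀ w, w ∈ E → ∀ h : w ∈ K, q ⟨w, h⟩ = 1 := by
    intro w hw
    rw [E] at hw
    induction hw using Subgroup.closure_induction with
    | mem x hx =>
      rcases hx with rfl | rfl
      · intro _; exact qa
      · intro _; exact qb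
    | one => intro h; exact map_one q
    | mul x y hx hy ihx ihy =>
      intro h
      have e : (⟨x * y, h⟩ : K) = ⟨x, hE hx⟩ * ⟨y, hE hy⟩ := rfl
      rw [e, map_mul, ihx, ihy, one_mul]
    | inv x hx ihx =>
      intro h
      have e : (⟨x⁻¹, h⟩ : K) = (⟨x, hE hx⟩ : K)⁻¹ := rfl
      rw [e, map_inv, ihx, inv_one]
  rw [eq_top_iff]
  rintro ⟨w, hw⟩ _
  have := key w (K_le_E hw) hw
  exact (QuotientGroup.eq_one_iff _).1 this

/-- the homomorphism `⟨z⟩ × K → W` -/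
def mulHom : Subgroup.zpowers z × K →* W :=
  MonoidHom.noncommCoprod (Subgroup.zpowers z).subtype K.subtype (by
    rintro ⟨_, n, rfl⟩ k
    exact (z_central k).zpow_left n)

lemma mulHom_apply (x : Subgroup.zpowers z × K) : mulHom x = (x.1 : W) * (x.2 : W) := rfl

lemma orderOf_z : orderOf z = 2 := by
  apply orderOf_eq_prime
  · rw [pow_two, z_sq]
  · intro h
    have := sgn_z
    rw [h, map_one] at this
    exact absurd this (by decide)

lemma zpowers_cases (u : Subgroup.zpowers z) : u = 1 ∨ (u : W) = z := by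
  obtain ⟨u, n, hn⟩ := u
  have hn' : z ^ n = u := hn
  rcases Int.even_or_odd' n with ⟨k, rfl | rfl⟩
  · left
    apply Subtype.ext
    show u = 1
    rw [← hn', zpow_mul]
    have : z ^ (2 : ℤ) = 1 := by rw [zpow_ofNat, pow_two, z_sq]
    rw [this, one_zpow]
  · right
    show u = z
    rw [← hn', zpow_add_one, zpow_mul]
    have : z ^ (2 : ℤ) = 1 := by rw [zpow_ofNat, pow_two, z_sq]
    rw [this, one_zpow, one_mul]

lemma mulHom_bij : Function.Bijective mulHom := by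
  constructor
  · rw [injective_iff_map_eq_one]
    rintro ⟨u, k⟩ h
    rw [mulHom_apply] at h
    have hk : sgn k = 1 := k.2
    have h' : sgn ((u : W) * k) = 1 := by
      have := congrArg sgn h
      rwa [map_one] at this
    rcases zpowers_cases u with hu | hu
    · subst hu
      have hk1 : (k : W) = 1 := by simpa using h
      exact Prod.ext rfl (Subtype.ext hk1)
    · rw [map_mul, hk, mul_one, hu, sgn_z] at h'
      exact absurd h' (by decide)
  · intro w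
    by_cases hw : sgn w = 1
    · exact ⟨(1, ⟨w, hw⟩), by rw [mulHom_apply]; simp⟩
    · have hw' : sgn w = -1 := by
        rcases Int.units_eq_one_or (sgn w) with h | h
        · exact absurd h hw
        · exact h
      refine ⟨(⟨z, Subgroup.mem_zpowers z⟩, ⟨z⁻¹ * w, ?_⟩), ?_⟩
      · rw [MonoidHom.mem_ker, map_mul, map_inv, sgn_z, hw']; decide
      · rw [mulHom_apply]; simp

open scoped commutatorElement in
/-- the derived subgroup of the dihedral group of order `8` -/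
lemma comm_D : commutator (DihedralGroup 4) = Subgroup.zpowers (DihedralGroup.r 2) := by
  apply le_antisymm
  · rw [commutator_def, Subgroup.commutator_le]
    intro g _ h _
    have key : ∀ g h : DihedralGroup 4, ⁅g, h⁆ = 1 ∨ ⁅g, h⁆ = DihedralGroup.r 2 := by decide
    rcases key g h with e | e
    · rw [e]; exact one_mem _
    · rw [e]; exact Subgroup.mem_zpowers _
  · rw [Subgroup.zpowers_le]
    have : (DihedralGroup.r 2 : DihedralGroup 4) =
        ⁅(DihedralGroup.r 1 : DihedralGroup 4), (DihedralGroup.sr 0 : DihedralGroup 4)⁆ := by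
      decide
    rw [this, commutator_def]
    exact Subgroup.commutator_mem_commutator (Subgroup.mem_top _) (Subgroup.mem_top _)

lemma card_comm_D : Nat.card (commutator (DihedralGroup 4)) = 2 := by
  rw [comm_D, Nat.card_zpowers]
  apply orderOf_eq_prime
  · decide
  · decide

/-- the Coxeter group of type `H₃` is integrable -/
lemma W_integrable : Integrable W := by
  refine ⟨DihedralGroup 4 × K, inferInstance, ⟨?_⟩⟩
  have h1 : commutator (DihedralGroup 4 × K) = (commutator (DihedralGroup 4)).prod ⊤ := by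
    rw [← K_perfect, commutator_def, commutator_def, commutator_def,
      ← Subgroup.commutator_prod_prod, Subgroup.top_prod_top]
  have e1 : commutator (DihedralGroup 4 × K) ≃* commutator (DihedralGroup 4) × (⊤ : Subgroup K) :=
    (MulEquiv.subgroupCongr h1).trans (Subgroup.prodEquiv _ _)
  have : Fact (Nat.Prime 2) := ⟨Nat.prime_two⟩
  have e2 : commutator (DihedralGroup 4) ≃* Subgroup.zpowers z :=
    mulEquivOfPrimeCardEq (p := 2) card_comm_D (by rw [Nat.card_zpowers, orderOf_z])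
  have e3 : (⊤ : Subgroup K) ≃* K := Subgroup.topEquiv
  exact (e1.trans (e2.prodCongr e3)).trans (MulEquiv.ofBijective mulHom mulHom_bij)

/-- images of the generators in the symmetric group on five letters -/
def perms : Fin 3 → Equiv.Perm (Fin 5)
  | 0 => Equiv.swap 1 2 * Equiv.swap 3 4
  | 1 => Equiv.swap 0 1 * Equiv.swap 3 4
  | 2 => Equiv.swap 1 3 * Equiv.swap 2 4

lemma noncomm : cs.simple 0 * cs.simple 1 ≠ cs.simple 1 * cs.simple 0 := by
  intro h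
  have hl : CoxeterMatrix.H₃.IsLiftable perms := by
    intro i j
    fin_cases i <;> fin_cases j <;> decide
  have h1 := congrArg (cs.lift ⟨perms, hl⟩) h
  rw [map_mul, map_mul, cs.lift_apply_simple, cs.lift_apply_simple] at h1
  exact absurd h1 (by decide)

lemma connected : (diagram CoxeterMatrix.H₃).Connected := by
  have h1 : (diagram CoxeterMatrix.H₃).Adj 0 1 := ⟨by decide, by decide⟩
  have h2 : (diagram CoxeterMatrix.H₃).Adj 2 1 := ⟨by decide, by decide⟩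
  have key : ∀ i, (diagram CoxeterMatrix.H₃).Reachable i 1 := by
    intro i
    fin_cases i
    · exact h1.reachable
    · exact SimpleGraph.Reachable.refl _
    · exact h2.reachable
  exact ⟨fun i j => (key i).trans (key j).symm⟩

/-- There is a Coxeter group with connected diagram, not isomorphic to `C₂`, which is
integrable. -/
theorem result : ∃ (B : Type) (M : CoxeterMatrix B), (diagram M).Connected ∧
    (¬ Nonempty (M.Group ≃* Multiplicative (ZMod 2))) ∧ Integrable M.Group := by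
  refine ⟨Fin 3, CoxeterMatrix.H₃, connected, ?_, W_integrable⟩
  rintro ⟨e⟩
  apply noncomm
  apply e.injective
  rw [map_mul, map_mul, mul_comm]

end Pool.Agent.Results.MP_417677_al.IntegralH3
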